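import Mathlib

namespace Pool.Agent.H.MP_3166b2_lc

open Set TopologicalSpace

/-- the Hilbert cube -/
def Q : Type := ℕ → unitInterval

/-- the product topology -/
instance tQ : TopologicalSpace Q := Pi.topologicalSpace

/-- `G` is the graph of the homeomorphism `T` of `K` -/
def Codes (G : Compacts (Q × Q)) (K : NonemptyCompacts Q) (T : K ≃ₜ K) : Prop :=
  (G : Set (Q × Q)) = range fun x : K => ((x : Q), (T x : Q))

/-- codes of minimal homeomorphisms -/
def Minimal (G : Compacts (Q × Q)) : Prop :=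
  ∃ (K : NonemptyCompacts Q) (T : K ≃ₜ K), Codes G K T ∧
    ∀ x : K, Dense (range fun n : ℤ => (T ^ n) x)

/-- codes of distal homeomorphisms -/
def Distal (d : Q → Q → ℝ) (G : Compacts (Q × Q)) : Prop :=
  ∃ (K : NonemptyCompacts Q) (T : K ≃ₜ K), Codes G K T ∧
    ∀ x y : K, x ≠ y → 0 < ⨅ n : ℤ, d ((T ^ n) x) ((T ^ n) y)

/-- topological conjugacy of codes -/
def Conj (G H : Compacts (Q × Q)) : Prop :=
  ∃ (K : NonemptyCompacts Q) (T : K ≃ₜ K) (L : NonemptyCompacts Q) (S : L ≃ₜ L),
    Codes G K T ∧ Codes H L S ∧ ∃ h : K ≃ₜ L, ∀ x, h (T x) = S (h x)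

/-- the space of minimal codes -/
def X : Type := {G : Compacts (Q × Q) // Minimal G}

/-- the subspace topology from the Vietoris hyperspace -/
instance tX : TopologicalSpace X := instTopologicalSpaceSubtype

end Pool.Agent.H.MP_3166b2_lc
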