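import Mathlib
import Pool.Agent.H.MP_78c86a_lc.C
import Pool.Agent.H.MP_3166b2_lc.Defs

namespace Pool.Agent.H.MP_3166b2_lc

open MeasureTheory Set Filter Topology TopologicalSpace Function Pool.Agent.H.MP_78c86a_lc

theorem semi {Z K : Type} [TopologicalSpace K] {T : K ≃ₜ K} {σ : Equiv.Perm Z} {e : Z → K}
    (h : ∀ z, e (σ z) = T (e z)) (n : ℤ) : ∀ z, (T ^ n) (e z) = e ((σ ^ n) z) := by
  induction n using Int.induction_on with
  | zero => exact fun _ => rfl
  | succ n ih =>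
    intro z
    rw [zpow_add_one, zpow_add_one, Homeomorph.mul_apply, Equiv.Perm.mul_apply, ← h, ih]
  | pred n ih =>
    intro z
    rw [zpow_sub_one, zpow_sub_one, Homeomorph.mul_apply, Equiv.Perm.mul_apply, ← ih]
    congr 1
    refine T.injective ?_
    rw [← h]
    simp

variable {Z : Type} [TopologicalSpace Z] {ι : Z → Q}

theorem unc (hι : IsEmbedding ι) {F : Z → Z} {G : Compacts (Q × Q)}
    (hG : (G : Set (Q × Q)) = range fun z => (ι z, ι (F z))) {K : NonemptyCompacts Q} {T : K ≃ₜ K}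
    (h : Codes G K T) : ∃ e : Z ≃ₜ K, ∀ z, e (F z) = T (e z) := by
  have h1 := hG.symm.trans h
  have h2 : range ι = (K : Set Q) := by
    have := congrArg (Prod.fst '' ·) h1
    simp only [← range_comp, comp_def] at this
    exact this.trans Subtype.range_coe
  refine ⟨hι.toHomeomorph.trans (Homeomorph.setCongr h2), fun z => ?_⟩
  obtain ⟨x, hx⟩ : (ι z, ι (F z)) ∈ range fun x : K => ((x : Q), (T x : Q)) := h1 ▸ ⟨z, rfl⟩
  rw [Prod.mk.injEq] at hx
  rw [show (hι.toHomeomorph.trans (Homeomorph.setCongr h2)) z = x from Subtype.ext hx.1.symm]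
  exact Subtype.ext hx.2.symm

theorem cod [CompactSpace Z] [Nonempty Z] (hι : IsEmbedding ι) (F : Z ≃ₜ Z)
    {G : Compacts (Q × Q)} (hG : (G : Set (Q × Q)) = range fun z => (ι z, ι (F z))) :
    ∃ (K : NonemptyCompacts Q) (T : K ≃ₜ K) (e : Z ≃ₜ K), Codes G K T ∧
      ∀ z, e (F z) = T (e z) := by
  refine ⟨⟨⟨range ι, isCompact_range hι.continuous⟩, range_nonempty _⟩,
    hι.toHomeomorph.symm.trans (F.trans hι.toHomeomorph), hι.toHomeomorph, ?_, fun z => ?_⟩
  · rw [Codes, hG]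
    refine Eq.trans ?_ (hι.toHomeomorph.surjective.range_comp _)
    congr 1
    funext z
    simp
    rfl
  · simp

theorem main {d : Q → Q → ℝ} (hd : Continuous fun p : Q × Q => d p.1 p.2)
    (hd2 : ∀ x y, x ≠ y → 0 < d x y) :
    ∃ (G : ℤ → (ℕ → ℕ) → Compacts (Q × Q)) (B : Set (ℕ → ℕ)),
      ¬ MeasurableSet B ∧ (∀ ε, Continuous (G ε)) ∧ (∀ ε y, Minimal (G ε y)) ∧
        (∀ ε y, Distal d (G ε y)) ∧ ∀ y, Conj (G 1 y) (G 0 y) ↔ y ∈ B := by
  obtain ⟨C, B, hB, c1, c2, c3⟩ := core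
  obtain ⟨ι, hι⟩ : ∃ ι : (J → UnitAddCircle) → Q, IsEmbedding ι := by
    letI := metrizableSpaceMetric (J → UnitAddCircle)
    exact Metric.PiNatEmbed.exists_embedding_to_hilbert_cube
  have hc := hι.continuous
  obtain ⟨G, cG, hG⟩ : ∃ G : ℤ → (ℕ → ℕ) → Compacts (Q × Q), (∀ ε, Continuous (G ε)) ∧
      ∀ ε y, (G ε y : Set (Q × Q)) = range fun z => (ι z, ι (Th aa (rr3 (C y) ε) z)) :=
    ⟨_, fun ε => Continuous.compacts_map' (f := fun _ => ⊤)
      (g := fun y z => (ι z, ι (Tf (rr (C y) ε) aa z))) continuous_const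
      ((hc.comp continuous_snd).prodMk (hc.comp (jcont c1 ε))), fun ε y => by
        rw [Compacts.coe_map, Compacts.coe_top, image_univ]
        rfl⟩
  choose K T e h1 h2 using fun ε y => cod hι _ (hG ε y)
  have h3 := fun ε y => semi (σ := (Th aa (rr3 (C y) ε)).toEquiv) (h2 ε y)
  refine ⟨G, B, hB, cG, fun ε y => ⟨_, _, h1 ε y, fun x => ?_⟩,
    fun ε y => ⟨_, _, h1 ε y, fun x x' hx => ?_⟩, fun y => ⟨?_, fun hy => ?_⟩⟩
  · obtain ⟨z, rfl⟩ := (e ε y).surjective x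
    refine ((e ε y).surjective.denseRange.dense_image (e ε y).continuous
      (minimal aa (rr_lv (C y) ε) lv3 (rr_hk _ _) z)).mono ?_
    rintro _ ⟨_, ⟨n, rfl⟩, rfl⟩
    refine ⟨n, (h3 ε y n z).trans ?_⟩
    rw [zpow_natCast, Equiv.Perm.coe_pow]
    rfl
  · obtain ⟨z, rfl⟩ := (e ε y).surjective x
    obtain ⟨z', rfl⟩ := (e ε y).surjective x'
    obtain ⟨i, i1, i2⟩ := distal aa (rr_lv (C y) ε) (rr3 (C y) ε) fun h : z = z' => hx (h ▸ rfl)
    obtain ⟨p, p1, p2⟩ := (isClosed_eq (f := fun p : (J → UnitAddCircle) × (J → UnitAddCircle) =>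
      p.1 i - p.2 i) (by fun_prop) (continuous_const (y := z i - z' i))).isCompact.exists_isMinOn
      (f := fun p => d (e ε y p.1) (e ε y p.2)) ⟨(z, z'), rfl⟩
      (hd.comp ((continuous_subtype_val.comp ((e ε y).continuous.comp continuous_fst)).prodMk
        (continuous_subtype_val.comp ((e ε y).continuous.comp continuous_snd)))).continuousOn
    refine lt_of_lt_of_le (hd2 _ _ fun h => i1 ?_) (le_ciInf fun n => ?_ :
      d (e ε y p.1) (e ε y p.2) ≤ _)
    · rw [← show p.1 i - p.2 i = _ from p1, (e ε y).injective (Subtype.ext h), sub_self]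
    · rw [h3, h3]
      exact p2 (a := (_, _)) (i2 n)
  · rintro ⟨K1, T1, K0, T0, k1, k0, h, hh⟩
    obtain ⟨e1, he1⟩ := unc hι (hG 1 y) k1
    obtain ⟨e0, he0⟩ := unc hι (hG 0 y) k0
    refine c3 y (fun z => e0.symm (h (e1 z))) (Continuous.measurable (by fun_prop))
      (Eventually.of_forall fun z => ?_)
    refine e0.injective ?_
    rw [e0.apply_symm_apply]
    refine ((congrArg h (he1 z)).trans (hh _)).trans (Eq.trans ?_ (he0 _).symm)
    rw [e0.apply_symm_apply]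
  · obtain ⟨Φ, -, hΦ⟩ := c2 y hy
    refine ⟨_, _, _, _, h1 1 y, h1 0 y, (e 1 y).symm.trans (Φ.trans (e 0 y)), fun x => ?_⟩
    obtain ⟨z, rfl⟩ := (e 1 y).surjective x
    rw [← h2]
    simp only [Homeomorph.trans_apply, Homeomorph.symm_apply_apply]
    rw [← h2]
    exact congrArg _ (hΦ z)

end Pool.Agent.H.MP_3166b2_lc
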